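import Mathlib
import Pool.Agent.V1156.GR.Few2

/-!
# Uniform growth gap when the elements have few eigenvalues modulo a prime

`G = ⟨S⟩`, `H` is a subgroup of index at most `d`, `Γ = γ_{k+1}(H)` is nilpotent (or `H/[Γ,Γ]` is
not virtually nilpotent), and `p` is a prime.  If every eigenvalue on `ℂ ⊗ Γ^ab` of every `t ∈ H`,
that is a unit and not a root of unity, has degree at most `m` or has many conjugates in comparison
with the number of eigenvalues of `t` on `Γ^ab / p Γ^ab`, then `G` is virtually nilpotent or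
`ρ_S ≥ c / (2 ^ (k + 1) (2 d - 1) (log (2 m)) ^ 3)` with an absolute constant `c > 0`.

For example (`m = 1`), let `s(t)` be the number of eigenvalues of `t` on `Γ^ab / p Γ^ab`.  It is
enough that `16 p s(t) log (p n) ≤ n log p` for the degrees `n ≥ 2` of the eigenvalues, if no two
distinct conjugate eigenvalues have the same `p ^ j`-th power.  Nothing is assumed on the orders of
the eigenvalues modulo `p`, and the `s(t)` need not be bounded.

Proof: in the growth argument of `Pool.Agent.TH53.UG5` an eigenvalue `x` of an element `t ∈ H` on a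
cyclic submodule appears; its minimal polynomial divides, modulo `p`, a power of the polynomial that
annihilates `Γ^ab / p Γ^ab`.  The lower bound of `Pool.Agent.TH53.SL4` for the Mahler measure of
polynomials with few distinct zeros modulo `p`, or the theorem of Dobrowolski, applies.
-/

set_option autoImplicit false

namespace Pool.Agent.Results.MP_d69e80_al.FewEigenvaluesModP

open Filter Topology Polynomial
open scoped Pointwise commutatorElement TensorProduct

universe u

/-- The term `γ_{k+1}(G)` of the lower central series (so `k = 1` gives `G'`). -/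
abbrev gamma (G : Type*) [Group G] (k : ℕ) : Subgroup G := (⊤ : Subgroup G).lowerCentralSeries k

/-- Conjugation by `t` on the abelianization `N^ab` (written additively) of a normal subgroup `N`,
as an endomorphism of the abelian group `N^ab`. -/
noncomputable def conjAb {G : Type*} [Group G] (N : Subgroup G) [N.Normal] (t : G) :
    Module.End ℤ (Additive (Abelianization N)) :=
  (MonoidHom.toAdditive
    (Abelianization.map (MulAut.conjNormal t : N ≃* N).toMonoidHom)).toIntLinearMap

/-- The endomorphism `g` of the abelian group `M` has at most `s` eigenvalues modulo `p`: there is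
a monic integer polynomial `P` with at most `s` distinct zeros in an algebraic closure of the field
with `p` elements, such that `P(g) M ⊆ p M`. -/
def FewModP {M : Type*} [AddCommGroup M] (p s : ℕ) [Fact p.Prime] (g : Module.End ℤ M) : Prop :=
  ∃ P : ℤ[X], P.Monic ∧
    ((P.map (Int.castRingHom (ZMod p))).rootSet (AlgebraicClosure (ZMod p))).ncard ≤ s ∧
    ∀ m : M, ∃ m' : M, (aeval g P) m = (p : ℤ) • m'

/-- `z` is an eigenvalue of `g` on `ℂ ⊗ M`. -/
def IsEig {M : Type*} [AddCommGroup M] (g : Module.End ℤ M) (z : ℂ) : Prop :=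
  Module.End.HasEigenvalue (LinearMap.baseChange ℂ g : Module.End ℂ (ℂ ⊗[ℤ] M)) z

/-- `z` is an algebraic unit and not a root of unity. -/
def UnitNotRoot (z : ℂ) : Prop :=
  IsIntegral ℤ z ∧ IsIntegral ℤ z⁻¹ ∧ ∀ n : ℕ, 0 < n → z ^ n ≠ 1

/-- The number of distinct `p ^ j`-th powers of the conjugates of the algebraic integer `z`. -/
noncomputable def powConj (p : ℕ) (z : ℂ) (j : ℕ) : ℕ :=
  ((fun w : ℂ => w ^ p ^ j) '' {w : ℂ | aeval w (minpoly ℤ z) = 0}).ncard

/-- The algebraic integer `z` has many conjugates in comparison with `s`: for some `N ≥ 1` there are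
at least `N` distinct `p ^ j`-th powers of its conjugates, for every `j`, and
`16 p s log (p N) ≤ N log p`. -/
def ManyConj (p s : ℕ) (z : ℂ) : Prop :=
  ∃ N : ℕ, 1 ≤ N ∧ (∀ j : ℕ, N ≤ powConj p z j) ∧
    16 * (p : ℝ) * s * Real.log (p * N) ≤ N * Real.log p

/-- For some `s`, the endomorphism `g` of `M` has at most `s` eigenvalues modulo `p`, and each of its
eigenvalues on `ℂ ⊗ M` that is a unit and not a root of unity has degree at most `m`, or many
conjugates in comparison with `s`. -/
def EigCond {M : Type*} [AddCommGroup M] (p m : ℕ) [Fact p.Prime] (g : Module.End ℤ M) : Prop :=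
  ∃ s : ℕ, FewModP p s g ∧ ∀ z : ℂ, IsEig g z → UnitNotRoot z →
    (minpoly ℤ z).natDegree ≤ m ∨ ManyConj p s z

/-- `Γ = γ_{k+1}(H)` is nilpotent, or `H / [Γ, Γ]` is not virtually nilpotent. -/
def NilpCond (H : Type*) [Group H] (k : ℕ) : Prop :=
  Group.IsNilpotent (gamma H k) ∨ ¬ Group.IsVirtuallyNilpotent (H ⧸ ⁅gamma H k, gamma H k⁆)

/-- If `A = γ_{k+1}(H)^ab` is finitely generated, then conjugation by each `t ∈ H` satisfies
`EigCond p m` on `A`. -/
def ActCond (H : Type*) [Group H] (k p m : ℕ) [Fact p.Prime] : Prop :=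
  Module.Finite ℤ (Additive (Abelianization (gamma H k))) →
    ∀ t : H, EigCond p m (conjAb (gamma H k) t)

/-- `ρ` is the exponential growth rate of `S`. -/
def HasRate {G : Type*} [Group G] (S : Set G) (ρ : ℝ) : Prop :=
  Tendsto (fun n : ℕ => Real.log (Nat.card ↥(S ^ n)) / n) atTop (𝓝 ρ)

theorem result :
    ∃ c : ℝ, 0 < c ∧ ∀ (k d m p : ℕ) [Fact p.Prime], 1 ≤ k → 1 ≤ m →
      ∀ (G : Type u) [Group G] (S : Set G), S.Finite → Subgroup.closure S = ⊤ →
      ∀ H : Subgroup G, H.index ≠ 0 → H.index ≤ d → NilpCond H k → ActCond H k p m →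
      ∃ ρ : ℝ, HasRate S ρ ∧
        (Group.IsVirtuallyNilpotent G ∨
          c / (2 ^ (k + 1) * (2 * d - 1) * Real.log (2 * m) ^ 3) ≤ ρ) := by
  obtain ⟨c, hc, hc400, hfew⟩ := V1156.GR.few_zeros'
  refine ⟨c, hc, ?_⟩
  intro k d m p _ hk hm G _ S hfin hgen H hH0 hHd hnil hmod
  refine ⟨H746UG.rho S, H746UG.tendsto_rho S, ?_⟩
  have hm1 : (1 : ℝ) ≤ m := by exact_mod_cast hm
  have hl2 := Real.log_two_gt_d9
  have hl2' : Real.log 2 ≤ Real.log (2 * m) := Real.log_le_log (by norm_num) (by linarith)
  have hl3 : (1 / 4 : ℝ) ≤ Real.log (2 * m) ^ 3 := by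
    have : (0.69 : ℝ) ≤ Real.log (2 * m) := by linarith
    calc (1 / 4 : ℝ) ≤ 0.69 ^ 3 := by norm_num
      _ ≤ _ := pow_le_pow_left₀ (by norm_num) this 3
  have hcl : c / Real.log (2 * m) ^ 3 ≤ Real.log 2 := by
    rw [div_le_iff₀ (by linarith)]
    nlinarith
  have key := TH53.UG.gap_general hk S hfin hgen H hH0 hHd hnil
    (c := c / Real.log (2 * m) ^ 3) hcl (by
      intro hMf t b x hx0 hx hp'
      have hxi : IsIntegral ℤ x := TH53.UG.integral_of_root _ b hp'
      by_cases hi : IsIntegral ℤ x⁻¹
      · obtain ⟨s, ⟨P, hPm, hPs, hPp⟩, hz⟩ := hmod hMf t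
        obtain ⟨N, hN⟩ := V1156.GR.dvd_of_poly (TH53.UG.act (gamma H k) t) b hp' P hPp
        have h1 := V1156.GR.rdeg_le_of_dvd (minpoly.monic hxi) hPm hN
        refine hfew m hm x hxi hx0 hx ?_
        rcases hz x (TH53.UG.eig_of_root (TH53.UG.act (gamma H k) t) b hp' (minpoly.aeval ℤ x))
          ⟨hxi, hi, hx⟩ with h2 | ⟨N', hN1, hN2, hN3⟩
        · exact Or.inl h2
        · refine Or.inr ⟨p, s, N', inferInstance, hN1, ?_, h1.trans hPs, hN3⟩
          intro j
          refine (hN2 j).trans (le_of_eq ?_)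
          unfold powConj TH53.SL.powZeros
          congr 2
          ext w
          rw [mem_rootSet_of_ne (minpoly.monic hxi).ne_zero]
          rfl
      · rw [H746UG.eta_eq_log_two x hx0 (fun h => hi h.2)]
        exact hcl)
  rcases key with h | h
  · exact Or.inl h
  · right
    refine le_trans (le_of_eq ?_) h
    rw [div_div]
    congr 1
    ring

end Pool.Agent.Results.MP_d69e80_al.FewEigenvaluesModP
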