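import Mathlib
import Pool.Agent.V1156.GR.Fac
import Pool.Agent.V1156.GR.Res

/-!
# Uniform growth gap when the eigenvalue polynomials have large resultants with products of
cyclotomic polynomials

`G = ⟨S⟩`, `H` is a subgroup of index at most `d`, and `Γ = γ_{k+1}(H)` is nilpotent (or `H/[Γ,Γ]`
is not virtually nilpotent). Suppose that for every eigenvalue `z` on `ℂ ⊗ Γ^ab` of every `t ∈ H`,
that is a unit and not a root of unity, the minimal polynomial `f` has degree at most `m`, or no
quotient of two distinct zeros of `f` is a root of unity and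
`log |Res(f, b)| ≥ 200 √(n a) (1 + log n) ^ (3/4)`, where `n` is the degree of `f`, for some product
`b` of distinct cyclotomic polynomials, of degree `a ≤ n`, containing with `Φ_l` all `Φ_e`, `e ∣ l`
(for example `b = X ^ a - 1`). Then `G` is virtually nilpotent or
`ρ_S ≥ c / (2 ^ (k + 1) (2 d - 1) (log (2 m)) ^ 3)` with an absolute constant `c > 0`.

For `b = X ^ a - 1` the resultant is the index of `(g ^ a - 1) L` in `L`, for a lattice `L` on which
`g` acts with characteristic polynomial `f`.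

Proof: in the growth argument of `Pool.Agent.TH53.UG5` an eigenvalue `x` of an element `t ∈ H` on a
cyclic submodule appears. The lower bound for Mahler measures of `Pool.Agent.V1156.RC.Main`, or the
theorem of Dobrowolski, applies to it.
-/

set_option autoImplicit false

namespace Pool.Agent.Results.MP_d69e80_al.LargeResultants

open Filter Topology Polynomial
open scoped Pointwise commutatorElement TensorProduct

universe u

/-- The term `γ_{k+1}(G)` of the lower central series (so `k = 1` gives `G'`). -/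
abbrev gamma (G : Type*) [Group G] (k : ℕ) : Subgroup G := (⊤ : Subgroup G).lowerCentralSeries k

/-- Conjugation by `t` on the abelianization `N^ab` (written additively) of a normal subgroup `N`,
as an endomorphism of the abelian group `N^ab`. -/
noncomputable def conjAb {G : Type*} [Group G] (N : Subgroup G) [N.Normal] (t : G) :
    Module.End ℤ (Additive (Abelianization N)) :=
  (MonoidHom.toAdditive
    (Abelianization.map (MulAut.conjNormal t : N ≃* N).toMonoidHom)).toIntLinearMap

/-- `z` is an eigenvalue of `g` on `ℂ ⊗ M`. -/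
def IsEig {M : Type*} [AddCommGroup M] (g : Module.End ℤ M) (z : ℂ) : Prop :=
  Module.End.HasEigenvalue (LinearMap.baseChange ℂ g : Module.End ℂ (ℂ ⊗[ℤ] M)) z

/-- `z` is an algebraic unit and not a root of unity. -/
def UnitNotRoot (z : ℂ) : Prop :=
  IsIntegral ℤ z ∧ IsIntegral ℤ z⁻¹ ∧ ∀ n : ℕ, 0 < n → z ^ n ≠ 1

/-- The degree of an algebraic integer. -/
noncomputable def deg (z : ℂ) : ℕ := (minpoly ℤ z).natDegree

/-- The absolute value of the resultant of the monic polynomial `f` and of `b`: the product of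
`|b(y)|` over the complex zeros `y` of `f` (with multiplicity). -/
noncomputable def resAbs (f b : ℤ[X]) : ℝ :=
  ((f.map (Int.castRingHom ℂ)).roots.map fun y => ‖aeval y b‖).prod

/-- No quotient of two distinct zeros of `f` is a root of unity. -/
def Nondegenerate (f : ℤ[X]) : Prop :=
  ∀ z z' : ℂ, aeval z f = 0 → aeval z' f = 0 → z ≠ z' → ∀ j : ℕ, 1 ≤ j → z ^ j ≠ z' ^ j

/-- For some finite nonempty set `𝒟` of positive integers, containing the divisors of its elements,
the product `b` of the cyclotomic polynomials `Φ_l`, `l ∈ 𝒟`, has degree `a ≤ n`, `n` the degree of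
`f`, and `log |Res(f, b)| ≥ 200 √(n a) (1 + log n) ^ (3/4)`. -/
def LargeResultant (f : ℤ[X]) : Prop :=
  ∃ 𝒟 : Finset ℕ, 𝒟.Nonempty ∧ (∀ l ∈ 𝒟, 0 < l) ∧ (∀ l ∈ 𝒟, ∀ e, e ∣ l → e ∈ 𝒟) ∧
    (∑ l ∈ 𝒟, Nat.totient l) ≤ f.natDegree ∧
    200 * (Real.sqrt (f.natDegree * (∑ l ∈ 𝒟, Nat.totient l : ℕ)) *
      (1 + Real.log f.natDegree) ^ (3 / 4 : ℝ)) ≤
        Real.log (resAbs f (∏ l ∈ 𝒟, cyclotomic l ℤ))

/-- `Γ = γ_{k+1}(H)` is nilpotent, or `H / [Γ, Γ]` is not virtually nilpotent. -/
def NilpCond (H : Type*) [Group H] (k : ℕ) : Prop :=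
  Group.IsNilpotent (gamma H k) ∨ ¬ Group.IsVirtuallyNilpotent (H ⧸ ⁅gamma H k, gamma H k⁆)

/-- If `A = γ_{k+1}(H)^ab` is finitely generated, then all the eigenvalues on `ℂ ⊗ A` of
conjugations by elements of `H`, that are units and not roots of unity, satisfy `P`. -/
def EigenvaluesSatisfy (H : Type*) [Group H] (k : ℕ) (P : ℂ → Prop) : Prop :=
  Module.Finite ℤ (Additive (Abelianization (gamma H k))) →
    ∀ t : H, ∀ z : ℂ, IsEig (conjAb (gamma H k) t) z → UnitNotRoot z → P z

/-- `ρ` is the exponential growth rate of `S`. -/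
def HasRate {G : Type*} [Group G] (S : Set G) (ρ : ℝ) : Prop :=
  Tendsto (fun n : ℕ => Real.log (Nat.card ↥(S ^ n)) / n) atTop (𝓝 ρ)

theorem result :
    ∃ c : ℝ, 0 < c ∧ ∀ k d m : ℕ, 1 ≤ k → 1 ≤ m →
      ∀ (G : Type u) [Group G] (S : Set G), S.Finite → Subgroup.closure S = ⊤ →
      ∀ H : Subgroup G, H.index ≠ 0 → H.index ≤ d → NilpCond H k →
      EigenvaluesSatisfy H k (fun z => deg z ≤ m ∨
        (Nondegenerate (minpoly ℤ z) ∧ LargeResultant (minpoly ℤ z))) →
      ∃ ρ : ℝ, HasRate S ρ ∧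
        (Group.IsVirtuallyNilpotent G ∨
          c / (2 ^ (k + 1) * (2 * d - 1) * Real.log (2 * m) ^ 3) ≤ ρ) := by
  obtain ⟨c, hc, hc400, hfew⟩ := V1156.GR.large_res
  refine ⟨c, hc, ?_⟩
  intro k d m hk hm G _ S hfin hgen H hH0 hHd hnil hmod
  refine ⟨H746UG.rho S, H746UG.tendsto_rho S, ?_⟩
  have hm1 : (1 : ℝ) ≤ m := by exact_mod_cast hm
  have hl2 := Real.log_two_gt_d9
  have hl2' : Real.log 2 ≤ Real.log (2 * m) := Real.log_le_log (by norm_num) (by linarith)
  have hl3 : (1 / 4 : ℝ) ≤ Real.log (2 * m) ^ 3 := by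
    have : (0.69 : ℝ) ≤ Real.log (2 * m) := by linarith
    calc (1 / 4 : ℝ) ≤ 0.69 ^ 3 := by norm_num
      _ ≤ _ := pow_le_pow_left₀ (by norm_num) this 3
  have hcl : c / Real.log (2 * m) ^ 3 ≤ Real.log 2 := by
    rw [div_le_iff₀ (by linarith)]
    nlinarith
  have key := TH53.UG.gap_general hk S hfin hgen H hH0 hHd hnil
    (c := c / Real.log (2 * m) ^ 3) hcl (by
      intro hMf t b x hx0 hx hp'
      have hxi : IsIntegral ℤ x := TH53.UG.integral_of_root _ b hp'
      by_cases hi : IsIntegral ℤ x⁻¹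
      · exact hfew m hm x hxi hx0 hx (hmod hMf t x
          (TH53.UG.eig_of_root (TH53.UG.act (gamma H k) t) b hp' (minpoly.aeval ℤ x))
          ⟨hxi, hi, hx⟩)
      · rw [H746UG.eta_eq_log_two x hx0 (fun h => hi h.2)]
        exact hcl)
  rcases key with h | h
  · exact Or.inl h
  · right
    refine le_trans (le_of_eq ?_) h
    rw [div_div]
    congr 1
    ring

end Pool.Agent.Results.MP_d69e80_al.LargeResultants
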