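import Mathlib
import Pool.Agent.V1156.GR.Loc

/-!
# Uniform growth gap when the eigenvalues have many real conjugates or many conjugates in a local
# field

`G = ⟨S⟩`, `H` is a subgroup of index at most `d`, and `Γ = γ_{k+1}(H)` is nilpotent (or `H/[Γ,Γ]`
is not virtually nilpotent).  Let `K` be a nonarchimedean local field of characteristic zero.
Suppose that every eigenvalue `z` on `ℂ ⊗ Γ^ab` of every `t ∈ H`, that is a unit and not a root of
unity, has degree `n ≤ m`, or about `√n (log n) ^ (1 / 4)` conjugates whose `r`-th powers are real,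
or about `√n (log n) ^ (1 / 4)` conjugates in `K`.  Then `G` is virtually nilpotent or
`ρ_S ≥ c / (2 ^ (k + 1) (2 d - 1) r ^ 5 (log (2 m)) ^ 3)` with an absolute constant `c > 0`.

Proof: in the growth argument of `Pool.Agent.TH53.UG5` an eigenvalue `x` of an element `t ∈ H` on a
cyclic submodule appears.  The lower bounds for Mahler measures of `Pool.Agent.H389R3.LR6` (real
lines) and `Pool.Agent.Y642.LZ.J` (local fields), or the theorem of Dobrowolski, apply to it.
-/

set_option autoImplicit false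

namespace Pool.Agent.Results.MP_d69e80_al.LocalConjugates

open Filter Topology Polynomial ValuativeRel
open scoped Pointwise commutatorElement TensorProduct

universe u v

/-- The term `γ_{k+1}(G)` of the lower central series (so `k = 1` gives `G'`). -/
abbrev gamma (G : Type*) [Group G] (k : ℕ) : Subgroup G := (⊤ : Subgroup G).lowerCentralSeries k

/-- Conjugation by `t` on the abelianization `N^ab` (written additively) of a normal subgroup `N`,
as an endomorphism of the abelian group `N^ab`. -/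
noncomputable def conjAb {G : Type*} [Group G] (N : Subgroup G) [N.Normal] (t : G) :
    Module.End ℤ (Additive (Abelianization N)) :=
  (MonoidHom.toAdditive
    (Abelianization.map (MulAut.conjNormal t : N ≃* N).toMonoidHom)).toIntLinearMap

/-- `z` is an eigenvalue of `g` on `ℂ ⊗ M`. -/
def IsEig {M : Type*} [AddCommGroup M] (g : Module.End ℤ M) (z : ℂ) : Prop :=
  Module.End.HasEigenvalue (LinearMap.baseChange ℂ g : Module.End ℂ (ℂ ⊗[ℤ] M)) z

/-- `z` is an algebraic unit and not a root of unity. -/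
def UnitNotRoot (z : ℂ) : Prop :=
  IsIntegral ℤ z ∧ IsIntegral ℤ z⁻¹ ∧ ∀ n : ℕ, 0 < n → z ^ n ≠ 1

/-- The degree of an algebraic integer. -/
noncomputable def deg (z : ℂ) : ℕ := (minpoly ℤ z).natDegree

/-- The number `R` of conjugates of `z` whose `r`-th power is real satisfies
`n √(log (2 n)) ≤ R ^ 2`, where `n = deg z`. -/
def ManyReal (r : ℕ) (z : ℂ) : Prop :=
  (deg z : ℝ) * Real.sqrt (Real.log (2 * deg z)) ≤
    ({w : ℂ | aeval w (minpoly ℤ z) = 0 ∧ (w ^ r).im = 0}.ncard : ℝ) ^ 2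

/-- The local field `K`, of residue characteristic `p`, ramification index `e` and with `q` elements
in the residue field, contains `R` conjugates of `z`, no two of which differ by a root of unity
only, and `n ^ 2 (1 + log n) + n R (log p) / e ≤ (R ^ 2 (log p) / ((q - 1) e)) ^ 2`, where
`n = deg z`. -/
def ManyLocal (K : Type v) [Field K] (p e q : ℕ) (z : ℂ) : Prop :=
  ∃ Y : Finset K, (∀ y ∈ Y, aeval y (minpoly ℤ z) = 0) ∧
    (∀ a ∈ Y, ∀ b ∈ Y, ∀ j : ℕ, 1 ≤ j → a ^ j = b ^ j → a = b) ∧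
    (deg z : ℝ) ^ 2 * (1 + Real.log (deg z)) + deg z * (Y.card / e * Real.log p) ≤
      ((Y.card : ℝ) ^ 2 / (q - 1) / e * Real.log p) ^ 2

/-- `Γ = γ_{k+1}(H)` is nilpotent, or `H / [Γ, Γ]` is not virtually nilpotent. -/
def NilpCond (H : Type*) [Group H] (k : ℕ) : Prop :=
  Group.IsNilpotent (gamma H k) ∨ ¬ Group.IsVirtuallyNilpotent (H ⧸ ⁅gamma H k, gamma H k⁆)

/-- If `A = γ_{k+1}(H)^ab` is finitely generated, then all the eigenvalues on `ℂ ⊗ A` of
conjugations by elements of `H`, that are units and not roots of unity, satisfy `P`. -/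
def EigenvaluesSatisfy (H : Type*) [Group H] (k : ℕ) (P : ℂ → Prop) : Prop :=
  Module.Finite ℤ (Additive (Abelianization (gamma H k))) →
    ∀ t : H, ∀ z : ℂ, IsEig (conjAb (gamma H k) t) z → UnitNotRoot z → P z

/-- `ρ` is the exponential growth rate of `S`. -/
def HasRate {G : Type*} [Group G] (S : Set G) (ρ : ℝ) : Prop :=
  Tendsto (fun n : ℕ => Real.log (Nat.card ↥(S ^ n)) / n) atTop (𝓝 ρ)

theorem result :
    ∃ c : ℝ, 0 < c ∧
      ∀ (K : Type v) [Field K] [ValuativeRel K] [TopologicalSpace K] [IsNonarchimedeanLocalField K]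
        [CharZero K] (p e : ℕ), p.Prime → 1 ≤ e → Ideal.span {((p : ℕ) : 𝒪[K])} = 𝓂[K] ^ e →
      ∀ k d m r : ℕ, 1 ≤ k → 1 ≤ m → 1 ≤ r →
      ∀ (G : Type u) [Group G] (S : Set G), S.Finite → Subgroup.closure S = ⊤ →
      ∀ H : Subgroup G, H.index ≠ 0 → H.index ≤ d → NilpCond H k →
      EigenvaluesSatisfy H k (fun z =>
        deg z ≤ m ∨ ManyReal r z ∨ ManyLocal K p e (Nat.card 𝓀[K]) z) →
      ∃ ρ : ℝ, HasRate S ρ ∧
        (Group.IsVirtuallyNilpotent G ∨
          c / (2 ^ (k + 1) * (2 * d - 1) * r ^ 5 * Real.log (2 * m) ^ 3) ≤ ρ) := by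
  obtain ⟨c, hc, hc400, hfew⟩ := V1156.GR.many_conj.{v}
  refine ⟨c, hc, ?_⟩
  intro K _ _ _ _ _ p e hp he hram k d m r hk hm hr G _ S hfin hgen H hH0 hHd hnil hmod
  refine ⟨H746UG.rho S, H746UG.tendsto_rho S, ?_⟩
  let D : Y642.LZ.Place.{v} := { p := p, hp := hp, K := K, e := e, he := he, ram := hram }
  have hm1 : (1 : ℝ) ≤ m := by exact_mod_cast hm
  have hr1 : (1 : ℝ) ≤ r := by exact_mod_cast hr
  have hr5 : (1 : ℝ) ≤ (r : ℝ) ^ 5 := one_le_pow₀ hr1
  have hl2 := Real.log_two_gt_d9
  have hl2' : Real.log 2 ≤ Real.log (2 * m) := Real.log_le_log (by norm_num) (by linarith)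
  have hl3 : (1 / 4 : ℝ) ≤ Real.log (2 * m) ^ 3 := by
    have : (0.69 : ℝ) ≤ Real.log (2 * m) := by linarith
    calc (1 / 4 : ℝ) ≤ 0.69 ^ 3 := by norm_num
      _ ≤ _ := pow_le_pow_left₀ (by norm_num) this 3
  have hcl : c / (r ^ 5 * Real.log (2 * m) ^ 3) ≤ Real.log 2 := by
    rw [div_le_iff₀ (by positivity)]
    have : (1 / 4 : ℝ) ≤ r ^ 5 * Real.log (2 * m) ^ 3 := by nlinarith
    nlinarith
  have key := TH53.UG.gap_general hk S hfin hgen H hH0 hHd hnil
    (c := c / (r ^ 5 * Real.log (2 * m) ^ 3)) hcl (by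
      intro hMf t b x hx0 hx hp'
      have hxi : IsIntegral ℤ x := TH53.UG.integral_of_root _ b hp'
      by_cases hi : IsIntegral ℤ x⁻¹
      · refine hfew m r hm hr D x hxi hx0 hx ?_
        rcases hmod hMf t x
          (TH53.UG.eig_of_root (TH53.UG.act (gamma H k) t) b hp' (minpoly.aeval ℤ x))
          ⟨hxi, hi, hx⟩ with h2 | h2 | ⟨Y, hY1, hY2, hY3⟩
        · exact Or.inl h2
        · refine Or.inr (Or.inl ?_)
          rw [← V1156.GR.lineRoots_eq hxi r]
          exact h2
        · exact Or.inr (Or.inr ⟨Y, hY1, hY2, hY3⟩)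
      · rw [H746UG.eta_eq_log_two x hx0 (fun h => hi h.2)]
        exact hcl)
  rcases key with h | h
  · exact Or.inl h
  · right
    refine le_trans (le_of_eq ?_) h
    rw [div_div]
    congr 1
    ring

end Pool.Agent.Results.MP_d69e80_al.LocalConjugates
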