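import Mathlib
import Pool.Agent.V1156.GR.Fac

/-!
# Uniform growth gap when the eigenvalue polynomials have many irreducible factors modulo a prime

`G = ⟨S⟩`, `H` is a subgroup of index at most `d`, and `Γ = γ_{k+1}(H)` is nilpotent (or `H/[Γ,Γ]`
is not virtually nilpotent).  Let `p` be a prime and `0 < θ ≤ 1`.  Suppose that for every eigenvalue
`z` on `ℂ ⊗ Γ^ab` of every `t ∈ H`, that is a unit and not a root of unity, the minimal polynomial
has degree at most `m`, or has modulo `p` irreducible factors of average degree at most `1 / θ`.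
Then `G` is virtually nilpotent or
`ρ_S ≥ c θ ^ 10 p ^ (-2 / θ - 2) / (2 ^ (k + 1) (2 d - 1) (log (2 m)) ^ 3)` with an absolute constant
`c > 0`.

Proof: in the growth argument of `Pool.Agent.TH53.UG5` an eigenvalue `x` of an element `t ∈ H` on a
cyclic submodule appears.  The lower bound for Mahler measures of `Pool.Agent.H252R3.Leh.Fin`, or
the theorem of Dobrowolski, applies to it.
-/

set_option autoImplicit false

namespace Pool.Agent.Results.MP_d69e80_al.ManyFactorsModP

open Filter Topology Polynomial UniqueFactorizationMonoid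
open scoped Pointwise commutatorElement TensorProduct

universe u

/-- The term `γ_{k+1}(G)` of the lower central series (so `k = 1` gives `G'`). -/
abbrev gamma (G : Type*) [Group G] (k : ℕ) : Subgroup G := (⊤ : Subgroup G).lowerCentralSeries k

/-- Conjugation by `t` on the abelianization `N^ab` (written additively) of a normal subgroup `N`,
as an endomorphism of the abelian group `N^ab`. -/
noncomputable def conjAb {G : Type*} [Group G] (N : Subgroup G) [N.Normal] (t : G) :
    Module.End ℤ (Additive (Abelianization N)) :=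
  (MonoidHom.toAdditive
    (Abelianization.map (MulAut.conjNormal t : N ≃* N).toMonoidHom)).toIntLinearMap

/-- `z` is an eigenvalue of `g` on `ℂ ⊗ M`. -/
def IsEig {M : Type*} [AddCommGroup M] (g : Module.End ℤ M) (z : ℂ) : Prop :=
  Module.End.HasEigenvalue (LinearMap.baseChange ℂ g : Module.End ℂ (ℂ ⊗[ℤ] M)) z

/-- `z` is an algebraic unit and not a root of unity. -/
def UnitNotRoot (z : ℂ) : Prop :=
  IsIntegral ℤ z ∧ IsIntegral ℤ z⁻¹ ∧ ∀ n : ℕ, 0 < n → z ^ n ≠ 1

/-- The degree of an algebraic integer. -/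
noncomputable def deg (z : ℂ) : ℕ := (minpoly ℤ z).natDegree

/-- The minimal polynomial of `z` over the integers, of degree `n`, has at least `θ n` irreducible
factors modulo `p`, counted with multiplicity. -/
def ManyFactors (p : ℕ) [Fact p.Prime] (θ : ℝ) (z : ℂ) : Prop :=
  θ * deg z ≤
    Multiset.card (normalizedFactors ((minpoly ℤ z).map (Int.castRingHom (ZMod p))))

/-- `Γ = γ_{k+1}(H)` is nilpotent, or `H / [Γ, Γ]` is not virtually nilpotent. -/
def NilpCond (H : Type*) [Group H] (k : ℕ) : Prop :=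
  Group.IsNilpotent (gamma H k) ∨ ¬ Group.IsVirtuallyNilpotent (H ⧸ ⁅gamma H k, gamma H k⁆)

/-- If `A = γ_{k+1}(H)^ab` is finitely generated, then all the eigenvalues on `ℂ ⊗ A` of
conjugations by elements of `H`, that are units and not roots of unity, satisfy `P`. -/
def EigenvaluesSatisfy (H : Type*) [Group H] (k : ℕ) (P : ℂ → Prop) : Prop :=
  Module.Finite ℤ (Additive (Abelianization (gamma H k))) →
    ∀ t : H, ∀ z : ℂ, IsEig (conjAb (gamma H k) t) z → UnitNotRoot z → P z

/-- `ρ` is the exponential growth rate of `S`. -/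
def HasRate {G : Type*} [Group G] (S : Set G) (ρ : ℝ) : Prop :=
  Tendsto (fun n : ℕ => Real.log (Nat.card ↥(S ^ n)) / n) atTop (𝓝 ρ)

theorem result :
    ∃ c : ℝ, 0 < c ∧ ∀ (k d m p : ℕ) [Fact p.Prime] (θ : ℝ), 1 ≤ k → 1 ≤ m → 0 < θ → θ ≤ 1 →
      ∀ (G : Type u) [Group G] (S : Set G), S.Finite → Subgroup.closure S = ⊤ →
      ∀ H : Subgroup G, H.index ≠ 0 → H.index ≤ d → NilpCond H k →
      EigenvaluesSatisfy H k (fun z => deg z ≤ m ∨ ManyFactors p θ z) →
      ∃ ρ : ℝ, HasRate S ρ ∧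
        (Group.IsVirtuallyNilpotent G ∨
          c * θ ^ 10 * (p : ℝ) ^ (-(2 / θ) - 2) /
            (2 ^ (k + 1) * (2 * d - 1) * Real.log (2 * m) ^ 3) ≤ ρ) := by
  obtain ⟨c, hc, hc400, hfew⟩ := V1156.GR.many_factors
  refine ⟨c, hc, ?_⟩
  intro k d m p _ θ hk hm hθ hθ1 G _ S hfin hgen H hH0 hHd hnil hmod
  refine ⟨H746UG.rho S, H746UG.tendsto_rho S, ?_⟩
  have hp : p.Prime := Fact.out
  have hp1 : (1 : ℝ) ≤ p := by exact_mod_cast hp.one_le
  have hm1 : (1 : ℝ) ≤ m := by exact_mod_cast hm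
  have hl2 := Real.log_two_gt_d9
  have hl2' : Real.log 2 ≤ Real.log (2 * m) := Real.log_le_log (by norm_num) (by linarith)
  have hl3 : (1 / 4 : ℝ) ≤ Real.log (2 * m) ^ 3 := by
    have : (0.69 : ℝ) ≤ Real.log (2 * m) := by linarith
    calc (1 / 4 : ℝ) ≤ 0.69 ^ 3 := by norm_num
      _ ≤ _ := pow_le_pow_left₀ (by norm_num) this 3
  have hθ10 : θ ^ 10 ≤ 1 := pow_le_one₀ hθ.le hθ1
  have hq : (p : ℝ) ^ (-(2 / θ) - 2) ≤ 1 := by
    apply Real.rpow_le_one_of_one_le_of_nonpos hp1
    have : 0 < 2 / θ := by positivity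
    linarith
  have hq0 : 0 ≤ (p : ℝ) ^ (-(2 / θ) - 2) := (Real.rpow_pos_of_pos (by linarith) _).le
  have hw : c * θ ^ 10 * (p : ℝ) ^ (-(2 / θ) - 2) ≤ c := by
    have h1 : θ ^ 10 * (p : ℝ) ^ (-(2 / θ) - 2) ≤ 1 := mul_le_one₀ hθ10 hq0 hq
    nlinarith
  have hcl : c * θ ^ 10 * (p : ℝ) ^ (-(2 / θ) - 2) / Real.log (2 * m) ^ 3 ≤ Real.log 2 := by
    rw [div_le_iff₀ (by linarith)]
    nlinarith
  have key := TH53.UG.gap_general hk S hfin hgen H hH0 hHd hnil
    (c := c * θ ^ 10 * (p : ℝ) ^ (-(2 / θ) - 2) / Real.log (2 * m) ^ 3) hcl (by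
      intro hMf t b x hx0 hx hp'
      have hxi : IsIntegral ℤ x := TH53.UG.integral_of_root _ b hp'
      by_cases hi : IsIntegral ℤ x⁻¹
      · exact hfew m hm p θ hθ hθ1 x hxi hx0 hx (hmod hMf t x
          (TH53.UG.eig_of_root (TH53.UG.act (gamma H k) t) b hp' (minpoly.aeval ℤ x))
          ⟨hxi, hi, hx⟩)
      · rw [H746UG.eta_eq_log_two x hx0 (fun h => hi h.2)]
        exact hcl)
  rcases key with h | h
  · exact Or.inl h
  · right
    refine le_trans (le_of_eq ?_) h
    rw [div_div]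
    congr 1
    ring

end Pool.Agent.Results.MP_d69e80_al.ManyFactorsModP
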